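import Pool.Agent.H28.RC.Basic
import Pool.Agent.H41.HK.GI

/-!
# Hecke L-functions of ray class characters: the Gamma integral
-/

set_option autoImplicit false

open NumberField NumberField.InfinitePlace NumberField.Units
  NumberField.Units.dirichletUnitTheorem MeasureTheory Set Filter Complex
open scoped nonZeroDivisors ENNReal

namespace Pool.Agent.H24.RC

open Pool.Agent.H28.RC Pool.Agent.H25.HK Pool.Agent.H25

/-- the factor at a real place with a linear factor -/
theorem real_factor (a : ℝ) (ha : 0 < a) (s : ℂ) :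
    (a : ℂ) * (((Real.pi * 1 * a ^ 2 : ℝ) : ℂ) ^ (-(((1 : ℝ) : ℂ) * (s + 1) / 2)) *
        Complex.Gamma (((1 : ℝ) : ℂ) * (s + 1) / 2)) =
      Gammaℝ (s + 1) * ((a : ℝ) : ℂ) ^ (-s) := by
  have hpi : (0 : ℝ) ≤ Real.pi := Real.pi_pos.le
  have ha' : (a : ℂ) ≠ 0 := Complex.ofReal_ne_zero.mpr ha.ne'
  rw [mul_one, Complex.ofReal_mul, Complex.mul_cpow_ofReal_nonneg hpi (by positivity),
    Gammaℝ_def, Complex.ofReal_one, one_mul]
  have h1 : ((a ^ 2 : ℝ) : ℂ) ^ (-((s + 1) / 2)) = ((a : ℝ) : ℂ) ^ (-s) * (a : ℂ)⁻¹ := by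
    rw [pow_two, Complex.ofReal_mul, Complex.mul_cpow_ofReal_nonneg ha.le ha.le,
      ← Complex.cpow_add _ _ ha', ← Complex.cpow_neg_one, ← Complex.cpow_add _ _ ha']
    congr 1
    ring
  rw [h1, neg_div]
  field_simp

open scoped Classical in
/-- (GI) the Gamma integral. -/
theorem pf_GI (h1 : T_JA) (h2 : T_G1) (h3 : T_YC) : T_GIc := by
  intro K _ _ S x s hx hs
  obtain ⟨hy, -⟩ := h3 K
  let S' : Finset (InfinitePlace K) := S.map ⟨Subtype.val, Subtype.val_injective⟩
  have hS' : ∀ v ∈ S', IsReal v := by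
    intro v hv
    obtain ⟨w, -, hw⟩ := Finset.mem_map.1 hv
    rw [← hw]
    exact w.2
  let l : InfinitePlace K → ℝ → ℝ := fun v y =>
    if v ∈ S' then Real.exp (y / 2) * v x else 1
  let f : InfinitePlace K → ℝ → ℂ := fun v y => ((l v y : ℝ) : ℂ) *
    ((Real.exp (-Real.pi * v.mult * Real.exp y * (v x) ^ 2) : ℂ) * cexp (s * (v.mult : ℝ) * y / 2))
  let g : (InfinitePlace K → ℝ) → ℂ := fun y => ∏ v, f v (y v)
  have hvx : ∀ v : InfinitePlace K, 0 < v x := fun v => InfinitePlace.pos_iff.mpr hx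
  have hm : ∀ v : InfinitePlace K, 0 < (v.mult : ℝ) := fun v => by
    have := v.mult_pos
    positivity
  have hs1 : 0 < (s + 1).re := by
    rw [Complex.add_re, Complex.one_re]
    linarith
  -- the function at a place of `S`
  have hf1 : ∀ v ∈ S', f v = fun y : ℝ => ((v x : ℝ) : ℂ) *
      ((Real.exp (-Real.pi * 1 * Real.exp y * (v x) ^ 2) : ℂ) *
        cexp ((s + 1) * ((1 : ℝ) : ℂ) * y / 2)) := by
    intro v hv
    funext y
    simp only [f, l, if_pos hv, (hS' v hv).mult_eq_one, Nat.cast_one]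
    rw [Complex.ofReal_mul, Complex.ofReal_exp]
    have h4 : cexp ((s + 1) * ((1 : ℝ) : ℂ) * y / 2) =
        cexp (((y / 2 : ℝ) : ℂ)) * cexp (s * ((1 : ℝ) : ℂ) * y / 2) := by
      rw [← Complex.exp_add]
      congr 1
      push_cast
      ring
    rw [h4]
    ring
  have hf2 : ∀ v, v ∉ S' → f v = fun y : ℝ =>
      (Real.exp (-Real.pi * v.mult * Real.exp y * (v x) ^ 2) : ℂ) *
        cexp (s * (v.mult : ℝ) * y / 2) := by
    intro v hv
    funext y
    simp only [f, l, if_neg hv, Complex.ofReal_one, one_mul]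
  have hfi : ∀ v, Integrable (f v) := by
    intro v
    by_cases hv : v ∈ S'
    · rw [hf1 v hv]
      exact (h2 1 (v x) (s + 1) one_pos (hvx v) hs1).1.const_mul _
    · rw [hf2 v hv]
      exact (h2 (v.mult : ℝ) (v x) s (hm v) (hvx v) hs).1
  have hgi : Integrable g := Integrable.fintype_prod hfi
  have h5 : ∀ v : InfinitePlace K, ∫ y, f v y =
      (if v ∈ S' then Gammaℝ (s + 1) else if IsReal v then Gammaℝ s else 2⁻¹ * Gammaℂ s) *
        (((v x) ^ v.mult : ℝ) : ℂ) ^ (-s) := by
    intro v
    by_cases hv : v ∈ S'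
    · rw [hf1 v hv, if_pos hv, integral_const_mul, (hS' v hv).mult_eq_one, pow_one,
        ← real_factor (v x) (hvx v) s]
      congr 1
      exact (h2 1 (v x) (s + 1) one_pos (hvx v) hs1).2
    · rw [hf2 v hv, if_neg hv, ← Pool.Agent.H41.HK.local_factor K v (v x) (hvx v) s]
      exact (h2 (v.mult : ℝ) (v x) s (hm v) (hvx v) hs).2
  have hcard1 : (Finset.univ.filter (fun v : InfinitePlace K => v ∈ S')).card = S.card := by
    have : Finset.univ.filter (fun v : InfinitePlace K => v ∈ S') = S' := by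
      ext v
      simp
    rw [this, Finset.card_map]
  have hcard2 : ((Finset.univ.filter (fun v : InfinitePlace K => v ∉ S')).filter
      (fun v => IsReal v)).card = nrRealPlaces K - S.card := by
    have h6 : ((Finset.univ.filter (fun v : InfinitePlace K => v ∉ S')).filter
        (fun v => IsReal v)) = (Finset.univ.filter (fun v : InfinitePlace K => IsReal v)) \ S' := by
      ext v
      simp [and_comm]
    have h7 : S' ⊆ Finset.univ.filter (fun v : InfinitePlace K => IsReal v) := by
      intro v hv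
      simp [hS' v hv]
    rw [h6, Finset.card_sdiff_of_subset h7, Finset.card_map, nrRealPlaces, Fintype.card_subtype]
  have hcard3 : ((Finset.univ.filter (fun v : InfinitePlace K => v ∉ S')).filter
      (fun v => ¬ IsReal v)).card = nrComplexPlaces K := by
    have h6 : ((Finset.univ.filter (fun v : InfinitePlace K => v ∉ S')).filter
        (fun v => ¬ IsReal v)) = Finset.univ.filter (fun v : InfinitePlace K => IsComplex v) := by
      ext v
      simp only [Finset.mem_filter, Finset.mem_univ, true_and, not_isReal_iff_isComplex]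
      constructor
      · exact fun h => h.2
      · intro h
        refine ⟨fun h7 => ?_, h⟩
        exact (not_isReal_iff_isComplex.2 h) (hS' v h7)
    rw [h6, nrComplexPlaces, Fintype.card_subtype]
  have hgv : ∫ y, g y = (Gammaℝ s ^ (nrRealPlaces K - S.card) * Gammaℝ (s + 1) ^ S.card *
      Gammaℂ s ^ nrComplexPlaces K) * ((2 : ℂ) ^ nrComplexPlaces K)⁻¹ *
      (((|Algebra.norm ℚ x| : ℚ) : ℝ) : ℂ) ^ (-s) := by
    have h4 : ∫ y, g y = ∏ v : InfinitePlace K, ∫ y, f v y :=
      integral_fintype_prod_volume_eq_prod f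
    rw [h4]
    simp_rw [h5]
    rw [Finset.prod_mul_distrib]
    congr 1
    · rw [Finset.prod_ite, Finset.prod_const, Finset.prod_ite, Finset.prod_const,
        Finset.prod_const, hcard1, hcard2, hcard3, mul_pow, inv_pow]
      ring
    · rw [← Pool.Agent.H41.HK.prod_cpow_of_pos Finset.univ
        (fun v : InfinitePlace K => (v x) ^ v.mult) (fun v _ => by positivity)]
      rw [InfinitePlace.prod_eq_abs_norm]
  have hfun : (fun p : ℝ × logSpace K => g (yc K p.1 p.2)) = (fun p : ℝ × logSpace K =>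
      ((|ws K S (yc K p.1 p.2) x| * Real.exp (-Real.pi * qK K (yc K p.1 p.2) x) : ℝ) : ℂ) *
        cexp (s * p.1)) := by
    funext p
    simp only [g, f]
    rw [Finset.prod_mul_distrib, Finset.prod_mul_distrib, Complex.ofReal_mul, mul_assoc]
    congr 1
    · rw [← Complex.ofReal_prod, abs_ws]
      congr 1
      simp only [l]
      rw [Finset.prod_ite, Finset.prod_const_one, mul_one]
      have h6 : Finset.univ.filter (fun v : InfinitePlace K => v ∈ S') = S' := by
        ext v
        simp
      rw [h6, Finset.prod_map]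
      rfl
    · congr 1
      · rw [← Complex.ofReal_prod, ← Real.exp_sum]
        congr 2
        rw [qK, Finset.mul_sum]
        refine Finset.sum_congr rfl fun v _ => ?_
        ring
      · rw [← Complex.exp_sum]
        congr 1
        have h8 := hy p.1 p.2
        have h9 : ((∑ v, (v.mult : ℝ) * yc K p.1 p.2 v : ℝ) : ℂ) = ((2 * p.1 : ℝ) : ℂ) := by
          rw [h8]
        push_cast at h9
        have h10 : ∑ v : InfinitePlace K, s * ((v.mult : ℝ) : ℂ) * ((yc K p.1 p.2 v : ℝ) : ℂ) / 2 =
            s / 2 * ∑ v : InfinitePlace K, ((v.mult : ℝ) : ℂ) * ((yc K p.1 p.2 v : ℝ) : ℂ) := by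
          rw [Finset.mul_sum]
          refine Finset.sum_congr rfl fun v _ => ?_
          ring
        rw [h10]
        push_cast
        rw [h9]
        ring
  obtain ⟨h11, h12⟩ := h1 K g hgi
  rw [hfun] at h11
  refine ⟨h11, ?_⟩
  have h13 : ∫ p : ℝ × logSpace K,
      ((|ws K S (yc K p.1 p.2) x| * Real.exp (-Real.pi * qK K (yc K p.1 p.2) x) : ℝ) : ℂ) *
        cexp (s * p.1) =
      ∫ p : ℝ × logSpace K, g (yc K p.1 p.2) := by rw [hfun]
  rw [h13, h12, hgv, pow_add, mul_inv]
  ring

end Pool.Agent.H24.RC
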