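import Pool.Agent.H28.RC.Basic
import Pool.Agent.H87.HK.DC

/-!
# Hecke L-functions of ray class characters: decay of the theta function
-/

set_option autoImplicit false

open NumberField NumberField.InfinitePlace NumberField.Units
  NumberField.Units.dirichletUnitTheorem MeasureTheory Set Filter Complex
open scoped nonZeroDivisors ENNReal

namespace Pool.Agent.H24.RC

open Pool.Agent.H28.RC Pool.Agent.H25.HK Pool.Agent.H25

theorem pf_DC (h1 : T_TH) (h2 : T_YC) (h3 : T_FD) : T_DCc := by
  intro K _ _ S M c hM hc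
  classical
  obtain ⟨B, hB⟩ := (h3 K).2.1
  obtain ⟨C0, hC0⟩ := (h2 K).2.2.2.2.2 B
  have hyc := (h2 K).2.2.2.1
  obtain ⟨δ, hδ, hδ2⟩ := Pool.Agent.H87.HK.exists_delta M (h1 K M hM _).1
  have hsum := (h1 K M hM (fun _ => -C0 - Real.log 4)).1
  have hq : ∀ x : K, qK K (fun _ => -C0 - Real.log 4) x =
      Real.exp (-C0) / 4 * qK K (fun _ => 0) x := by
    intro x
    rw [Pool.Agent.H87.HK.qK_const, Real.exp_sub, Real.exp_log (by norm_num)]
  refine ⟨∑' x : {x : K // x ∈ M}, Real.exp (-Real.pi * qK K (fun _ => -C0 - Real.log 4) x),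
    Real.pi * Real.exp (-C0) / 4 * δ, by positivity, ?_⟩
  intro t ht z hz
  have htpos : 0 < t := by linarith
  set s : ℝ := t ^ ((2 : ℝ) / Module.finrank ℚ K) with hs
  have hs1 : 1 ≤ s := Real.one_le_rpow ht (by positivity)
  have hsexp : s = Real.exp (2 * Real.log t / Module.finrank ℚ K) := by
    rw [hs, Real.rpow_def_of_pos htpos]
    congr 1
    ring
  have hlow : ∀ x : K, Real.exp (-C0) * s * qK K (fun _ => 0) x ≤
      qK K (yc K (Real.log t) z) x := by
    intro x
    have h4 : ∀ v, (2 * Real.log t / Module.finrank ℚ K - C0) ≤ yc K (Real.log t) z v := by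
      intro v
      rw [hyc]
      have := neg_abs_le (yc K 0 z v)
      have h5 := hC0 z (hB z hz) v
      linarith
    have h5 := Pool.Agent.H87.HK.qK_mono
      (y := fun _ => 2 * Real.log t / Module.finrank ℚ K - C0) h4 x
    rw [Pool.Agent.H87.HK.qK_const, sub_eq_add_neg, Real.exp_add, ← hsexp] at h5
    linarith [h5, mul_comm s (Real.exp (-C0))]
  set Y := yc K (Real.log t) z with hY
  have hnorm : ∀ x : {x : K // x ∈ M},
      ‖c x * ((ws K S Y x * Real.exp (-Real.pi * qK K Y x) : ℝ) : ℂ)‖ ≤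
        |ws K S Y x| * Real.exp (-Real.pi * qK K Y x) := by
    intro x
    rw [norm_mul, Complex.norm_real, Real.norm_eq_abs, abs_mul, abs_of_pos (Real.exp_pos _)]
    have h6 : 0 ≤ |ws K S Y x| * Real.exp (-Real.pi * qK K Y x) := by positivity
    calc ‖c x‖ * (|ws K S Y x| * Real.exp (-Real.pi * qK K Y x))
        ≤ 1 * (|ws K S Y x| * Real.exp (-Real.pi * qK K Y x)) :=
          mul_le_mul_of_nonneg_right (hc x x.2) h6
      _ = _ := one_mul _
  have hmain : Summable fun x : {x : K // x ∈ M} =>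
      c x * ((ws K S Y x * Real.exp (-Real.pi * qK K Y x) : ℝ) : ℂ) :=
    Summable.of_norm_bounded (pf_SM h1 K S M hM Y).1 hnorm
  have hth : tf K S M c Y - (if S = ∅ then c 0 else 0) =
      ∑' x : {x : K // x ∈ M}, ite (x = ⟨0, M.zero_mem⟩) 0
        (c x * ((ws K S Y x * Real.exp (-Real.pi * qK K Y x) : ℝ) : ℂ)) := by
    unfold tf
    rw [hmain.tsum_eq_add_tsum_ite ⟨0, M.zero_mem⟩]
    simp only
    have h7 : c 0 * ((ws K S Y 0 * Real.exp (-Real.pi * qK K Y 0) : ℝ) : ℂ) =
        if S = ∅ then c 0 else 0 := by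
      rw [Pool.Agent.H87.HK.qK_zero, mul_zero, Real.exp_zero, mul_one]
      split_ifs with hS
      · subst hS
        rw [ws_empty]
        simp
      · rw [ws_zero S hS]
        simp
    rw [h7]
    ring
  rw [hth]
  refine tsum_of_norm_bounded (hsum.hasSum.mul_right _) ?_
  intro x
  have hπ := Real.pi_pos
  have ha := Real.exp_pos (-C0)
  split_ifs with hx
  · rw [norm_zero]
    positivity
  · have hx' : (x : K) ≠ 0 := fun h => hx (Subtype.ext h)
    refine (hnorm x).trans ((ws_exp_le S Y x).trans ?_)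
    rw [qK_shift, ← Real.exp_add, hq]
    apply Real.exp_le_exp.2
    have h5 := hlow x
    have h6 := hδ2 x hx'
    have h7 : 0 ≤ qK K (fun _ => 0) (x : K) := Pool.Agent.H87.HK.qK_nonneg _ _
    set q := qK K (fun _ => 0) (x : K) with hqdef
    set a := Real.exp (-C0) with hadef
    have h8 : a / 4 * q + a / 4 * δ * s ≤ a * s * q / 2 := by
      have h9 : a / 4 * q ≤ a / 4 * s * q := by
        have : 0 ≤ a / 4 * q := by positivity
        nlinarith
      have h10 : a / 4 * δ * s ≤ a / 4 * s * q := by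
        have : 0 ≤ a / 4 * s := by positivity
        nlinarith
      linarith
    have h11 : Real.pi * (a / 4 * q + a / 4 * δ * s) ≤ Real.pi * (qK K Y x / 2) :=
      mul_le_mul_of_nonneg_left (by linarith) hπ.le
    linarith

end Pool.Agent.H24.RC
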