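import Pool.Agent.H78.RC.Targets
import Pool.Agent.H87.QP.Targets3
import Pool.Agent.H24.RZ.GHA
import Pool.Agent.H24.WT.Cls
import Pool.Agent.H24.GG.Both

/-!
# Theorem (H0) on windows for `χ μ` in the forms used for the filters (MP_c59857_nt)
-/

set_option autoImplicit false

namespace Pool.Agent.H24.RC

open Finset Pool.Agent.H6.N4D Pool.Agent.H28.NW Pool.Agent.H83.LI

/-- theorem (H0) on windows for functions which agree with `χ μ` on the squarefree numbers -/
theorem aGHC : Pool.Agent.H78.RC.T_GHC := by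
  intro D _
  obtain ⟨c, K, hc, h⟩ :=
    Pool.Agent.H24.WT.gh0W Pool.Agent.H3.GW.Fin.gh0w D 0 (fun _ => 0) (by simp)
  refine ⟨min c 1, K, lt_min hc one_pos, min_le_right _ _, fun R => ?_⟩
  obtain ⟨H₀, h⟩ := h R
  refine ⟨H₀ + 1, fun X H χ f hH₀ hX hf hs b β hb => ?_⟩
  have e1 : Real.log ((X.hi : ℝ) / X.lo) = X.L := Pool.Agent.H24.WT.LL_eq X.one_le X.le
  have h1 := h H X.lo X.hi (by omega) X.one_le X.le (by rw [e1]; exact hX)
    (by rw [e1]; exact X.big) χ 0 f (by simp) hf (Pool.Agent.H24.GG.prod_chi χ f hs)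
    (fun p hp => by
      rw [hs p hp.squarefree, ArithmeticFunction.moebius_apply_prime hp]
      simp) b β hb
  rw [e1] at h1
  have hL : 0 ≤ X.L := by
    refine le_trans (mul_nonneg (Nat.cast_nonneg K) (Real.log_nonneg ?_)) hX
    exact_mod_cast (by omega : 1 ≤ H)
  refine lt_of_le_of_lt (mul_le_mul_of_nonneg_right (min_le_left c 1) hL) ?_
  refine lt_of_lt_of_le h1 (le_of_eq ?_)
  unfold wlg ds
  refine sum_congr rfl fun n _ => ?_
  rw [one_div_mul_eq_div]

lemma sum_Ioc_add_c (n H : ℕ) (F : ℕ → ℝ) :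
    ∑ m ∈ Ioc n (n + H), F m = ∑ h ∈ Icc 1 H, F (n + h) :=
  Pool.Agent.H24.RZ.sum_Ioc_add n H F

/-- (H0) for the class of the functions which agree with `χ μ` on the squarefree numbers, in the
form of `Pool.Agent.H87.QP` -/
theorem hz_class (D : ℕ) [NeZero D] : Pool.Agent.H87.QP.HZ
    {f | (∀ n, ‖f n‖ ≤ 1) ∧ ∃ χ : DirichletCharacter ℂ D,
      ∀ n, Squarefree n → f n = χ n * ArithmeticFunction.moebius n} := by
  obtain ⟨c, K, hc, -, h⟩ := aGHC D
  refine ⟨c, K, hc, fun R => ?_⟩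
  obtain ⟨H₀, h⟩ := h R
  refine ⟨H₀, fun X H f hf hH₀ hX b β hb => ?_⟩
  obtain ⟨hf1, χ, hs⟩ := hf
  have h1 := h X H χ f hH₀ hX hf1 hs (fun n r => b n r * ee (β n r * n)) β
    (fun n r => by rw [norm_mul, norm_ee, mul_one]; exact hb n r)
  refine lt_of_lt_of_le h1 (le_of_eq ?_)
  congr 1
  funext n
  unfold ds
  rw [sum_Ioc_add_c]
  congr 1
  refine sum_congr rfl fun h _ => ?_
  congr 3
  refine sum_congr rfl fun r _ => ?_
  have e3 : Complex.exp (2 * Real.pi * Complex.I * ((β n r : ℂ) * (h : ℂ))) =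
      ee (β n r * h) := by
    rw [Pool.Agent.H24.GG.ee_exp]
    push_cast
    ring_nf
  rw [e3, mul_assoc, ← ee_add]
  congr 2
  push_cast
  ring

end Pool.Agent.H24.RC
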