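import Pool.Agent.H24.RC.CMC

/-!
# (CM1) the twisted comparison
-/

set_option autoImplicit false

open NumberField NumberField.InfinitePlace Complex

namespace Pool.Agent.H24.RC

open Pool.Agent.H28.RC Pool.Agent.H25.HK Pool.Agent.H25

/-- a twisted representation -/
noncomputable def twr (R : DL.ArtinRep) {G : Type} [Group G] {q : ℕ}
    (res : G →* (R.K ≃ₐ[ℚ] R.K)) (c : G →* (ZMod q)ˣ) (θ : DirichletCharacter ℂ q) :
    G →* Module.End ℂ R.V where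
  toFun g := θ ((c g : (ZMod q)ˣ) : ZMod q) • R.rho (res g)
  map_one' := by simp
  map_mul' g h := by
    rw [map_mul, map_mul, map_mul, Units.val_mul, map_mul, smul_mul_smul_comm]

theorem pf_CM1 : T_DIR → T_TWK → T_TRX → T_RAM → T_EIG → T_AIC → T_PE → T_POW → T_TWT → T_SPT →
    T_SPA → T_LKc → T_FEP → T_FNR → T_CM1 := by
  intro hDIR hTWK hTRX hRAM hEIG hAIC hPE hPOW hTWT hSPT hSPA hLK hFEP _ R D
  obtain ⟨P, hP⟩ : ∃ P : ℕ, P = ∏ i, (Module.finrank ℚ (FF R (D.H i))).factorial := ⟨_, rfl⟩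
  have hP0 : 1 ≤ P := by
    rw [hP]
    exact Finset.prod_pos fun i _ => Nat.factorial_pos _
  have hG0 : 1 ≤ Nat.card (R.K ≃ₐ[ℚ] R.K) := Nat.card_pos
  have hm0 := D.m_pos
  obtain ⟨M, hM⟩ : ∃ M : ℕ, M = 2 * Nat.card (R.K ≃ₐ[ℚ] R.K) * D.m * P := ⟨_, rfl⟩
  have hM2 : 2 ≤ M := by
    rw [hM]
    have h1 : 1 ≤ Nat.card (R.K ≃ₐ[ℚ] R.K) * D.m * P := by
      have := Nat.mul_pos (Nat.mul_pos hG0 hm0) hP0
      exact this
    nlinarith [h1]
  have hMG : Nat.card (R.K ≃ₐ[ℚ] R.K) ∣ M := ⟨2 * D.m * P, by rw [hM]; ring⟩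
  have hMe : Even M := ⟨Nat.card (R.K ≃ₐ[ℚ] R.K) * D.m * P, by rw [hM]; ring⟩
  have hMm : D.m ∣ M := ⟨2 * Nat.card (R.K ≃ₐ[ℚ] R.K) * P, by rw [hM]; ring⟩
  have hPi : ∀ i, (Module.finrank ℚ (FF R (D.H i))).factorial ∣ P := fun i => by
    rw [hP]
    exact Finset.dvd_prod_of_mem _ (Finset.mem_univ i)
  have hMi : ∀ i, D.m * (Module.finrank ℚ (FF R (D.H i))).factorial ∣ M := fun i => by
    obtain ⟨r, hr⟩ := hPi i
    exact ⟨2 * Nat.card (R.K ≃ₐ[ℚ] R.K) * r, by rw [hM, hr]; ring⟩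
  refine ⟨M, hM2, hMG, hMi, fun p₀ ζ hζ => ?_⟩
  obtain ⟨q, hq, θ, hqp, hθ⟩ := hDIR p₀ M ζ p₀.2 (by omega) hζ
  have hφq : 1 ≤ q.totient := Nat.totient_pos.2 (Nat.pos_of_ne_zero hq.out)
  obtain ⟨M', hM'⟩ : ∃ M' : ℕ, M' = M * q.totient := ⟨_, rfl⟩
  have hM'2 : 2 ≤ M' := by
    rw [hM']
    nlinarith
  have hMM' : M ∣ M' := ⟨q.totient, hM'⟩
  refine ⟨M', hM'2, hMM', ?_⟩
  obtain ⟨R', res, c, hR'⟩ := hTWK R q
  have hco : ∀ a ∈ un M', a.Coprime M := fun a ha =>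
    Nat.Coprime.coprime_dvd_right hMM' (mem_un.1 ha).2
  -- the characters
  have hX : ∀ (i : Fin D.N) (a : ℕ), a ∈ un M' → ∃ X : RCC (FF R (D.H i)),
      ∀ p k : ℕ, p.Prime → p.Coprime q → 1 ≤ k →
        spc X p k = θ (p : ZMod q) ^ (a * k) * spc (D.χ i) p (a * k) := by
    intro i a ha
    obtain ⟨χ₁, -, -, h1⟩ := hPOW _ (D.χ i) M a (by omega) hMe (fun I => by
      rcases D.val i I with h | h
      · exact Or.inl h
      · refine Or.inr ?_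
        obtain ⟨r, hr⟩ := hMm
        rw [hr, pow_mul, h, one_pow]) (hco a ha)
    obtain ⟨χ₂, h2⟩ := hTWT _ χ₁ q (θ ^ a)
    refine ⟨χ₂, fun p k hp hpq hk => ?_⟩
    rw [hSPT _ χ₁ χ₂ q (θ ^ a) h2 p k hp hpq hk]
    rw [(hSPA _).1 (D.χ i) χ₁ a p k hp hk (un_pos hM'2 ha) (Nat.Coprime.coprime_dvd_right
      (dvd_trans ⟨D.m, by ring⟩ (hMi i)) (hco a ha)) h1]
    congr 1
    rw [pow_mul, MulChar.pow_apply' θ (by have := un_pos hM'2 ha; omega)]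
  choose X hX using hX
  obtain ⟨φ, hφ⟩ : ∃ φ : (R'.K ≃ₐ[ℚ] R'.K) → ℂ, φ = fun g => ∑ a ∈ un M',
      (fun x => LinearMap.trace ℂ R.V (R.rho (x ^ a))) (res g) *
        (θ ^ a) ((c g : (ZMod q)ˣ) : ZMod q) := ⟨_, rfl⟩
  have hθu : ∀ u : (ZMod q)ˣ, θ (u : ZMod q) ^ M' = 1 := by
    intro u
    rw [hM', mul_comm M, pow_mul, ← map_pow, ← Units.val_pow_eq_pow_val, ZMod.pow_totient]
    simp
  have hφ' : ∀ g, φ g = ∑ a ∈ un M', LinearMap.trace ℂ R.V (twr R res c θ (g ^ a)) := by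
    intro g
    rw [hφ]
    refine Finset.sum_congr rfl fun a ha => ?_
    show _ = LinearMap.trace ℂ R.V (θ ((c (g ^ a) : (ZMod q)ˣ) : ZMod q) • R.rho (res (g ^ a)))
    rw [map_smul, map_pow, map_pow, Units.val_pow_eq_pow_val, map_pow, smul_eq_mul, mul_comm,
      MulChar.pow_apply' θ (by have := un_pos hM'2 ha; omega)]
  have hρM : ∀ g, twr R res c θ g ^ M' = 1 := by
    intro g
    show (θ ((c g : (ZMod q)ˣ) : ZMod q) • R.rho (res g)) ^ M' = 1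
    rw [smul_pow, hθu, one_smul, ← map_pow]
    have : (res g) ^ M' = 1 := by
      obtain ⟨r, hr⟩ := dvd_trans hMG hMM'
      rw [hr, pow_mul, pow_card_eq_one', one_pow]
    rw [this, map_one]
  obtain ⟨f1, f2, f3⟩ := phi_props hEIG hRAM (twr R res c θ) M' hM'2 hρM φ hφ'
  have htp : ∀ (p : Nat.Primes) (k : ℕ), Nat.Coprime p q → 1 ≤ k → tp R' p k φ =
      ∑ a ∈ un M', θ ((p : ℕ) : ZMod q) ^ (a * k) *
        LinearMap.trace ℂ R.V (R.fr p ^ (a * k)) := by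
    intro p k hpq hk
    rw [hφ, tp_sum]
    refine Finset.sum_congr rfl fun a ha => ?_
    rw [hR' p hpq (θ ^ a) (fun x => LinearMap.trace ℂ R.V (R.rho (x ^ a))) k]
    rw [(hTRX R).2 M hM2 hMG p k a hk (un_pos hM'2 ha) (hco a ha)]
    rw [mul_comm k a]
    congr 1
    rw [pow_mul, MulChar.pow_apply' θ (by have := un_pos hM'2 ha; omega)]
  obtain ⟨Y, hY⟩ : ∃ Y : Fin D.N × {a // a ∈ un M'} → CX,
      Y = fun ia => ⟨FF R (D.H ia.1), inferInstance, inferInstance, X ia.1 ia.2.1 ia.2.2⟩ :=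
    ⟨_, rfl⟩
  obtain ⟨n, hn⟩ : ∃ n : Fin D.N × {a // a ∈ un M'} → ℤ, n = fun ia => D.n ia.1 := ⟨_, rfl⟩
  have hsum : ∀ (p : Nat.Primes) (k : ℕ), Nat.Coprime p q → 1 ≤ k →
      ∑ i, (n i : ℂ) * spc (Y i).χ p k = ∑ a ∈ un M', θ ((p : ℕ) : ZMod q) ^ (a * k) *
        ∑ i, (D.n i : ℂ) * spc (D.χ i) p (a * k) := by
    intro p k hpq hk
    rw [Fintype.sum_prod_type, Finset.sum_comm, ← Finset.sum_coe_sort (un M')]
    refine Finset.sum_congr rfl fun a _ => ?_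
    rw [Finset.mul_sum]
    refine Finset.sum_congr rfl fun i _ => ?_
    subst hY hn
    show (D.n i : ℂ) * spc (X i a.1 a.2) p k = _
    rw [hX i a.1 a.2 p k p.2 hpq hk]
    ring
  obtain ⟨f4, -⟩ := core hLK hFEP hAIC hPE hSPA R' φ f1 f2 f3 Y n (D.B ∪ q.primeFactors)
    fun p hp k hk => by
      rw [Finset.mem_union, not_or] at hp
      have hpq : Nat.Coprime p q := by
        rw [Nat.Prime.coprime_iff_not_dvd p.2]
        exact fun h => hp.2 (Nat.mem_primeFactors.2 ⟨p.2, h, hq.out⟩)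
      rw [hsum p k hpq hk, htp p k hpq hk]
      refine Finset.sum_congr rfl fun a ha => ?_
      have := un_pos hM'2 ha
      rw [D.good p hp.1 (a * k) (Nat.mul_pos this hk)]
  intro k hk
  have h7 := f4 p₀ k hk
  rw [hsum p₀ k hqp.symm hk, htp p₀ k hqp.symm hk, hθ] at h7
  rw [← sub_eq_zero, ← Finset.sum_sub_distrib] at h7
  rw [← h7]
  exact Finset.sum_congr rfl fun a _ => by ring

end Pool.Agent.H24.RC
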