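import Pool.Agent.H24.RC.CMC

/-!
# (CM2) the Gamma factors
-/

set_option autoImplicit false

open NumberField NumberField.InfinitePlace Complex

namespace Pool.Agent.H24.RC

open Pool.Agent.H28.RC Pool.Agent.H25.HK Pool.Agent.H25

theorem pf_CM2 : T_TRX → T_RAM → T_EIG → T_AIC → T_PE → T_POW → T_SPA → T_LKc → T_FEP → T_FNR →
    T_AC → T_CM2 := by
  intro hTRX hRAM hEIG hAIC hPE hPOW hSPA hLK hFEP _ hAC R D
  obtain ⟨P, hP⟩ : ∃ P : ℕ, P = ∏ i, (Module.finrank ℚ (FF R (D.H i))).factorial := ⟨_, rfl⟩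
  have hP0 : 1 ≤ P := by
    rw [hP]
    exact Finset.prod_pos fun i _ => Nat.factorial_pos _
  have hG0 : 1 ≤ Nat.card (R.K ≃ₐ[ℚ] R.K) := Nat.card_pos
  have hm0 := D.m_pos
  obtain ⟨M, hM⟩ : ∃ M : ℕ, M = 2 * Nat.card (R.K ≃ₐ[ℚ] R.K) * D.m * P := ⟨_, rfl⟩
  have hM2 : 2 ≤ M := by
    rw [hM]
    have h1 : 1 ≤ Nat.card (R.K ≃ₐ[ℚ] R.K) * D.m * P :=
      Nat.mul_pos (Nat.mul_pos hG0 hm0) hP0
    nlinarith [h1]
  have hMG : Nat.card (R.K ≃ₐ[ℚ] R.K) ∣ M := ⟨2 * D.m * P, by rw [hM]; ring⟩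
  have hMe : Even M := ⟨Nat.card (R.K ≃ₐ[ℚ] R.K) * D.m * P, by rw [hM]; ring⟩
  have hMm : D.m ∣ M := ⟨2 * Nat.card (R.K ≃ₐ[ℚ] R.K) * P, by rw [hM]; ring⟩
  have hPi : ∀ i, (Module.finrank ℚ (FF R (D.H i))).factorial ∣ P := fun i => by
    rw [hP]
    exact Finset.dvd_prod_of_mem _ (Finset.mem_univ i)
  have hMi : ∀ i, (Module.finrank ℚ (FF R (D.H i))).factorial ∣ M := fun i => by
    obtain ⟨r, hr⟩ := hPi i
    exact ⟨2 * Nat.card (R.K ≃ₐ[ℚ] R.K) * D.m * r, by rw [hM, hr]; ring⟩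
  have hco : ∀ a ∈ un M, a.Coprime M := fun a ha => (mem_un.1 ha).2
  -- the characters
  have hX : ∀ (i : Fin D.N) (a : ℕ), a ∈ un M → ∃ X : RCC (FF R (D.H i)), X.S = (D.χ i).S ∧
      ∀ p k : ℕ, p.Prime → 1 ≤ k → spc X p k = spc (D.χ i) p (a * k) := by
    intro i a ha
    obtain ⟨χ₁, -, h0, h1⟩ := hPOW _ (D.χ i) M a (by omega) hMe (fun I => by
      rcases D.val i I with h | h
      · exact Or.inl h
      · refine Or.inr ?_
        obtain ⟨r, hr⟩ := hMm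
        rw [hr, pow_mul, h, one_pow]) (hco a ha)
    exact ⟨χ₁, h0, fun p k hp hk => (hSPA _).1 (D.χ i) χ₁ a p k hp hk (un_pos hM2 ha)
      (Nat.Coprime.coprime_dvd_right (hMi i) (hco a ha)) h1⟩
  choose X hXS hX using hX
  obtain ⟨φ, hφ⟩ : ∃ φ : (R.K ≃ₐ[ℚ] R.K) → ℂ, φ = fun g => ∑ a ∈ un M,
      LinearMap.trace ℂ R.V (R.rho (g ^ a)) := ⟨_, rfl⟩
  have hφ' : ∀ g, φ g = ∑ a ∈ un M, LinearMap.trace ℂ R.V (R.rho (g ^ a)) := fun g => by rw [hφ]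
  have hρM : ∀ g, R.rho g ^ M = 1 := by
    intro g
    rw [← map_pow]
    have : g ^ M = 1 := by
      obtain ⟨r, hr⟩ := hMG
      rw [hr, pow_mul, pow_card_eq_one', one_pow]
    rw [this, map_one]
  obtain ⟨f1, f2, f3⟩ := phi_props hEIG hRAM R.rho M hM2 hρM φ hφ'
  obtain ⟨Y, hY⟩ : ∃ Y : Fin D.N × {a // a ∈ un M} → CX,
      Y = fun ia => ⟨FF R (D.H ia.1), inferInstance, inferInstance, X ia.1 ia.2.1 ia.2.2⟩ :=
    ⟨_, rfl⟩
  obtain ⟨n, hn⟩ : ∃ n : Fin D.N × {a // a ∈ un M} → ℤ, n = fun ia => D.n ia.1 := ⟨_, rfl⟩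
  obtain ⟨-, N, s, b, hN, hb, hg0, hg1⟩ := core hLK hFEP hAIC hPE hSPA R φ f1 f2 f3 Y n D.B
    fun p hp k hk => by
      rw [Fintype.sum_prod_type, Finset.sum_comm, hφ, tp_sum, ← Finset.sum_coe_sort (un M)]
      refine Finset.sum_congr rfl fun a _ => ?_
      have ha := un_pos hM2 a.2
      rw [(hTRX R).2 M hM2 hMG p k a.1 hk ha (hco a.1 a.2), mul_comm k a.1,
        D.good p hp (a.1 * k) (Nat.mul_pos ha hk)]
      refine Finset.sum_congr rfl fun i _ => ?_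
      subst hY hn
      show (D.n i : ℂ) * spc (X i a.1 a.2) p k = _
      rw [hX i a.1 a.2 p k p.2 hk]
  obtain ⟨u, hu⟩ : ∃ u : ℕ, u = (un M).card := ⟨_, rfl⟩
  have hu1 : 1 ≤ u := by
    rw [hu]
    refine Finset.card_pos.2 ⟨1, mem_un.2 ⟨by omega, Nat.coprime_one_left M⟩⟩
  have s0 : ∑ i, n i * ((Y i).g0 : ℤ) = (u : ℤ) * ∑ i, D.n i *
      ((nrRealPlaces (FF R (D.H i)) - (D.χ i).S.card +
        nrComplexPlaces (FF R (D.H i)) : ℕ) : ℤ) := by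
    rw [Fintype.sum_prod_type, Finset.mul_sum]
    refine Finset.sum_congr rfl fun i _ => ?_
    have e1 : ∀ a : {a // a ∈ un M}, n (i, a) * ((Y (i, a)).g0 : ℤ) = D.n i *
        ((nrRealPlaces (FF R (D.H i)) - (D.χ i).S.card +
          nrComplexPlaces (FF R (D.H i)) : ℕ) : ℤ) := by
      intro a
      subst hY hn
      show D.n i * ((nrRealPlaces (FF R (D.H i)) - (X i a.1 a.2).S.card +
        nrComplexPlaces (FF R (D.H i)) : ℕ) : ℤ) = _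
      rw [hXS i a.1 a.2]
    rw [Finset.sum_congr rfl fun a _ => e1 a, Finset.sum_const, Finset.card_univ,
      Fintype.card_coe, ← hu, nsmul_eq_mul]
  have s1 : ∑ i, n i * ((Y i).g1 : ℤ) = (u : ℤ) * ∑ i, D.n i *
      (((D.χ i).S.card + nrComplexPlaces (FF R (D.H i)) : ℕ) : ℤ) := by
    rw [Fintype.sum_prod_type, Finset.mul_sum]
    refine Finset.sum_congr rfl fun i _ => ?_
    have e1 : ∀ a : {a // a ∈ un M}, n (i, a) * ((Y (i, a)).g1 : ℤ) = D.n i *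
        (((D.χ i).S.card + nrComplexPlaces (FF R (D.H i)) : ℕ) : ℤ) := by
      intro a
      subst hY hn
      show D.n i * (((X i a.1 a.2).S.card + nrComplexPlaces (FF R (D.H i)) : ℕ) : ℤ) = _
      rw [hXS i a.1 a.2]
    rw [Finset.sum_congr rfl fun a _ => e1 a, Finset.sum_const, Finset.card_univ,
      Fintype.card_coe, ← hu, nsmul_eq_mul]
  obtain ⟨c, hcc, hc⟩ := hAC R
  obtain ⟨a₀, b₀, hab, htr⟩ := trace_involution (R.rho c) (by rw [← map_mul, hcc, map_one])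
  have hφ1 : φ 1 = (u : ℂ) * ((a₀ : ℂ) + (b₀ : ℂ)) := by
    rw [hφ]
    have : ∀ a ∈ un M, LinearMap.trace ℂ R.V (R.rho (1 ^ a)) = (a₀ : ℂ) + (b₀ : ℂ) := by
      intro a _
      rw [one_pow, map_one, LinearMap.trace_one, ← hab]
      push_cast
      ring
    show ∑ a ∈ un M, LinearMap.trace ℂ R.V (R.rho (1 ^ a)) = _
    rw [Finset.sum_congr rfl this, Finset.sum_const, nsmul_eq_mul, hu]
  have hφc : φ c = (u : ℂ) * ((a₀ : ℂ) - (b₀ : ℂ)) := by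
    rw [hφ]
    have : ∀ a ∈ un M, LinearMap.trace ℂ R.V (R.rho (c ^ a)) = (a₀ : ℂ) - (b₀ : ℂ) := by
      intro a ha
      have hodd : Odd a := by
        rw [← Nat.coprime_two_right]
        exact Nat.Coprime.coprime_dvd_right (even_iff_two_dvd.1 hMe) (hco a ha)
      obtain ⟨r, hr⟩ := hodd
      have : c ^ a = c := by
        rw [hr, pow_succ, pow_mul, pow_two, hcc, one_pow, one_mul]
      rw [this, htr]
    show ∑ a ∈ un M, LinearMap.trace ℂ R.V (R.rho (c ^ a)) = _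
    rw [Finset.sum_congr rfl this, Finset.sum_const, nsmul_eq_mul, hu]
  have hpl : ∀ H : Subgroup (R.K ≃ₐ[ℚ] R.K), (nrRealPlaces (FF R H) : ℂ) = (pc H c : ℂ) ∧
      (nrRealPlaces (FF R H) : ℂ) + 2 * (nrComplexPlaces (FF R H) : ℂ) = (pc H 1 : ℂ) := by
    intro H
    obtain ⟨e1, e2⟩ := hc H
    refine ⟨by rw [e1], ?_⟩
    rw [← e2, ← card_add_two_mul_card_eq_rank (FF R H)]
    push_cast
    ring
  have hN0 : (N : ℂ) ≠ 0 := by
    have : N ≠ 0 := by omega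
    exact_mod_cast this
  have hu0 : (u : ℂ) ≠ 0 := by
    have : u ≠ 0 := by omega
    exact_mod_cast this
  have hb1 := hb 1
  have hbc := hb c
  rw [hφ1] at hb1
  rw [hφc] at hbc
  have r0 : (N : ℂ) * ((u : ℂ) * (a₀ : ℂ)) =
      ∑ H ∈ s, (b H : ℂ) * ((nrRealPlaces (FF R H) : ℂ) + (nrComplexPlaces (FF R H) : ℂ)) := by
    have e1 : ∑ H ∈ s, (b H : ℂ) * ((nrRealPlaces (FF R H) : ℂ) +
        (nrComplexPlaces (FF R H) : ℂ)) = ∑ H ∈ s, ((1 / 2 : ℂ) * ((b H : ℂ) * (pc H 1 : ℂ)) +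
        (1 / 2 : ℂ) * ((b H : ℂ) * (pc H c : ℂ))) := by
      refine Finset.sum_congr rfl fun H _ => ?_
      rw [← (hpl H).1, ← (hpl H).2]
      ring
    rw [e1, Finset.sum_add_distrib, ← Finset.mul_sum, ← Finset.mul_sum, ← hb1, ← hbc]
    ring
  have r1 : (N : ℂ) * ((u : ℂ) * (b₀ : ℂ)) =
      ∑ H ∈ s, (b H : ℂ) * (nrComplexPlaces (FF R H) : ℂ) := by
    have e1 : ∑ H ∈ s, (b H : ℂ) * (nrComplexPlaces (FF R H) : ℂ) =
        ∑ H ∈ s, ((1 / 2 : ℂ) * ((b H : ℂ) * (pc H 1 : ℂ)) +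
        (-1 / 2 : ℂ) * ((b H : ℂ) * (pc H c : ℂ))) := by
      refine Finset.sum_congr rfl fun H _ => ?_
      rw [← (hpl H).1, ← (hpl H).2]
      ring
    rw [e1, Finset.sum_add_distrib, ← Finset.mul_sum, ← Finset.mul_sum, ← hb1, ← hbc]
    ring
  have hNu : (N : ℤ) * (u : ℤ) ≠ 0 := by
    have h1 : N ≠ 0 := by omega
    have h2 : u ≠ 0 := by omega
    exact_mod_cast mul_ne_zero h1 h2
  refine ⟨a₀, b₀, hab, ?_, ?_⟩
  · apply mul_left_cancel₀ hNu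
    rw [mul_assoc, mul_assoc, ← s0, hg0]
    have : (((N : ℤ) * ((u : ℤ) * (a₀ : ℤ)) : ℤ) : ℂ) = ((∑ H ∈ s, b H *
        ((nrRealPlaces (FF R H) + nrComplexPlaces (FF R H) : ℕ) : ℤ) : ℤ) : ℂ) := by
      push_cast
      exact r0
    exact_mod_cast this
  · apply mul_left_cancel₀ hNu
    rw [mul_assoc, mul_assoc, ← s1, hg1]
    have : (((N : ℤ) * ((u : ℤ) * (b₀ : ℤ)) : ℤ) : ℂ) = ((∑ H ∈ s, b H *
        ((nrComplexPlaces (FF R H) : ℕ) : ℤ) : ℤ) : ℂ) := by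
      push_cast
      exact r1
    exact_mod_cast this

end Pool.Agent.H24.RC
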