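import Pool.Agent.H28.RC.Targets2
import Pool.Agent.H25.HK.AA

/-!
# Comparison of families of L-functions: common part
-/

set_option autoImplicit false

open NumberField NumberField.InfinitePlace Complex

namespace Pool.Agent.H24.RC

open Pool.Agent.H28.RC Pool.Agent.H25.HK Pool.Agent.H25

/-- a number field with a ray class character -/
structure CX where
  K : Type
  fK : Field K
  nK : NumberField K
  χ : RCC K

attribute [instance] CX.fK CX.nK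

/-- the number of Gamma factors with parameter zero -/
noncomputable def CX.g0 (X : CX) : ℕ := nrRealPlaces X.K - X.χ.S.card + nrComplexPlaces X.K

/-- the number of Gamma factors with parameter one -/
noncomputable def CX.g1 (X : CX) : ℕ := X.χ.S.card + nrComplexPlaces X.K

theorem fam (hLK : T_LKc) (hFEP : T_FEP) {ι : Type} [Fintype ι] (X : ι → CX) (c : ι → ℤ)
    (B : Finset ℕ)
    (h : ∀ p k : ℕ, p.Prime → p ∉ B → 1 ≤ k → ∑ i, (c i : ℂ) * spc (X i).χ p k = 0) :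
    (∀ p k : ℕ, p.Prime → 1 ≤ k → ∑ i, (c i : ℂ) * spc (X i).χ p k = 0) ∧
      ∑ i, c i * ((X i).g0 : ℤ) = 0 ∧ ∑ i, c i * ((X i).g1 : ℤ) = 0 := by
  choose L hL using fun i => hLK (X i).K (X i).χ
  have hps : ∀ p k : ℕ, p.Prime → 1 ≤ k → ps L c p k = ∑ i, (c i : ℂ) * spc (X i).χ p k := by
    intro p k hp hk
    unfold ps
    refine Finset.sum_congr rfl fun i _ => ?_
    rw [(hL i).2.2.2.2.2.2 p k hp hk]
  have hGd : Gd L := ⟨fun i => (hL i).2.1, fun i j p hp => (hL i).2.2.2.2.2.1 j p hp⟩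
  obtain ⟨h1, h2, h3⟩ := hFEP ι L c B hGd fun p k hp hB hk => by rw [hps p k hp hk, h p k hp hB hk]
  refine ⟨fun p k hp hk => by rw [← hps p k hp hk, h1 p k hp hk], ?_, ?_⟩
  · rw [← h2]
    refine Finset.sum_congr rfl fun i _ => ?_
    unfold cκ
    rw [(hL i).2.2.2.1]
    rfl
  · rw [← h3]
    refine Finset.sum_congr rfl fun i _ => ?_
    unfold cκ
    rw [(hL i).2.2.2.2.1]
    rfl

/-- the trivial character of a fixed field -/
noncomputable def tX (R : DL.ArtinRep) (H : Subgroup (R.K ≃ₐ[ℚ] R.K)) : CX where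
  K := FF R H
  fK := inferInstance
  nK := inferInstance
  χ := triv (FF R H)

lemma tX_g0 (R : DL.ArtinRep) (H : Subgroup (R.K ≃ₐ[ℚ] R.K)) :
    (tX R H).g0 = nrRealPlaces (FF R H) + nrComplexPlaces (FF R H) := by
  show nrRealPlaces (FF R H) - (∅ : Finset _).card + nrComplexPlaces (FF R H) = _
  simp

lemma tX_g1 (R : DL.ArtinRep) (H : Subgroup (R.K ≃ₐ[ℚ] R.K)) :
    (tX R H).g1 = nrComplexPlaces (FF R H) := by
  show (∅ : Finset _).card + nrComplexPlaces (FF R H) = _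
  simp

theorem tp_pe (hPE : T_PE) (R : DL.ArtinRep) (φ : (R.K ≃ₐ[ℚ] R.K) → ℂ) (N : ℕ)
    (s : Finset (Subgroup (R.K ≃ₐ[ℚ] R.K))) (b : Subgroup (R.K ≃ₐ[ℚ] R.K) → ℤ)
    (h : ∀ g, (N : ℂ) * φ g = ∑ H ∈ s, (b H : ℂ) * (pc H g : ℂ)) (p : Nat.Primes) (k : ℕ)
    (hk : 1 ≤ k) :
    (N : ℂ) * tp R p k φ = ∑ H ∈ s, (b H : ℂ) * (spf (FF R H) p k : ℂ) := by
  have : Fintype (R.In p) := Fintype.ofFinite _
  unfold tp
  have h1 : ∀ H ∈ s, (b H : ℂ) * (spf (FF R H) p k : ℂ) = (Nat.card (R.In p) : ℂ)⁻¹ *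
      ∑ g : R.In p, (b H : ℂ) * (pc H (R.Fr p ^ k * (g : R.K ≃ₐ[ℚ] R.K)) : ℂ) := by
    intro H _
    rw [hPE R H p k hk, finsum_eq_sum_of_fintype, ← Finset.mul_sum]
    ring
  rw [Finset.sum_congr rfl h1, ← Finset.mul_sum, Finset.sum_comm, finsum_eq_sum_of_fintype]
  have h2 : ∑ g : R.In p, ∑ H ∈ s, (b H : ℂ) * (pc H (R.Fr p ^ k * (g : R.K ≃ₐ[ℚ] R.K)) : ℂ) =
      (N : ℂ) * ∑ g : R.In p, φ (R.Fr p ^ k * (g : R.K ≃ₐ[ℚ] R.K)) := by
    rw [Finset.mul_sum]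
    exact Finset.sum_congr rfl fun g _ => (h (R.Fr p ^ k * (g : R.K ≃ₐ[ℚ] R.K))).symm
  rw [h2]
  ring

theorem core (hLK : T_LKc) (hFEP : T_FEP) (hAIC : T_AIC) (hPE : T_PE) (hSPA : T_SPA)
    (R : DL.ArtinRep) (φ : (R.K ≃ₐ[ℚ] R.K) → ℂ) (h1 : ∀ g, ∃ q : ℚ, φ g = q)
    (h2 : ∀ x g, φ (x⁻¹ * g * x) = φ g)
    (h3 : ∀ g (j : ℕ), j.Coprime (Nat.card (R.K ≃ₐ[ℚ] R.K)) → φ (g ^ j) = φ g)
    {ι : Type} [Fintype ι] (X : ι → CX) (n : ι → ℤ) (B : Finset ℕ)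
    (h : ∀ p : Nat.Primes, (p : ℕ) ∉ B → ∀ k : ℕ, 1 ≤ k →
      ∑ i, (n i : ℂ) * spc (X i).χ p k = tp R p k φ) :
    (∀ (p : Nat.Primes) (k : ℕ), 1 ≤ k → ∑ i, (n i : ℂ) * spc (X i).χ p k = tp R p k φ) ∧
    ∃ (N : ℕ) (s : Finset (Subgroup (R.K ≃ₐ[ℚ] R.K))) (b : Subgroup (R.K ≃ₐ[ℚ] R.K) → ℤ),
      1 ≤ N ∧ (∀ g, (N : ℂ) * φ g = ∑ H ∈ s, (b H : ℂ) * (pc H g : ℂ)) ∧
      (N : ℤ) * ∑ i, n i * ((X i).g0 : ℤ) =
        ∑ H ∈ s, b H * ((nrRealPlaces (FF R H) + nrComplexPlaces (FF R H) : ℕ) : ℤ) ∧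
      (N : ℤ) * ∑ i, n i * ((X i).g1 : ℤ) =
        ∑ H ∈ s, b H * ((nrComplexPlaces (FF R H) : ℕ) : ℤ) := by
  obtain ⟨N, s, b, hN, hb⟩ := hAIC _ φ h1 h2 h3
  have hN0 : (N : ℂ) ≠ 0 := by
    have : N ≠ 0 := by omega
    exact_mod_cast this
  obtain ⟨Y, hY⟩ : ∃ Y : ι ⊕ {H // H ∈ s} → CX,
      Y = Sum.elim X fun H => tX R H.1 := ⟨_, rfl⟩
  obtain ⟨c, hc⟩ : ∃ c : ι ⊕ {H // H ∈ s} → ℤ,
      c = Sum.elim (fun i => (N : ℤ) * n i) fun H => - b H.1 := ⟨_, rfl⟩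
  have hsum : ∀ p : Nat.Primes, ∀ k : ℕ, 1 ≤ k → ∑ i, (c i : ℂ) * spc (Y i).χ p k =
      (N : ℂ) * (∑ i, (n i : ℂ) * spc (X i).χ p k - tp R p k φ) := by
    intro p k hk
    subst hY hc
    rw [mul_sub, tp_pe hPE R φ N s b hb p k hk, Fintype.sum_sum_type, Finset.mul_sum,
      sub_eq_add_neg, ← Finset.sum_neg_distrib]
    congr 1
    · refine Finset.sum_congr rfl fun i _ => ?_
      show (((N : ℤ) * n i : ℤ) : ℂ) * spc (X i).χ p k = _
      push_cast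
      ring
    · rw [← Finset.sum_coe_sort s (fun H => -((b H : ℂ) * (spf (FF R H) p k : ℂ)))]
      refine Finset.sum_congr rfl fun H _ => ?_
      show ((-b H.1 : ℤ) : ℂ) * spc (triv (FF R H.1)) p k = _
      rw [(hSPA (FF R H.1)).2 p k p.2 hk]
      push_cast
      ring
  obtain ⟨f1, f2, f3⟩ := fam hLK hFEP Y c B fun p k hp hB hk => by
    rw [hsum ⟨p, hp⟩ k hk, h ⟨p, hp⟩ hB k hk, sub_self, mul_zero]
  refine ⟨fun p k hk => ?_, N, s, b, hN, hb, ?_, ?_⟩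
  · have := f1 p k p.2 hk
    rw [hsum p k hk] at this
    rcases mul_eq_zero.1 this with h6 | h6
    · exact absurd h6 hN0
    · exact sub_eq_zero.1 h6
  · rw [Fintype.sum_sum_type, hY, hc] at f2
    simp only [Sum.elim_inl, Sum.elim_inr, tX_g0] at f2
    rw [Finset.mul_sum, ← Finset.sum_coe_sort s (fun H => b H *
      ((nrRealPlaces (FF R H) + nrComplexPlaces (FF R H) : ℕ) : ℤ))]
    have e1 : ∑ x : {H // H ∈ s}, -b x.1 *
        ((nrRealPlaces (FF R x.1) + nrComplexPlaces (FF R x.1) : ℕ) : ℤ) =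
        - ∑ x : {H // H ∈ s}, b x.1 *
          ((nrRealPlaces (FF R x.1) + nrComplexPlaces (FF R x.1) : ℕ) : ℤ) := by
      rw [← Finset.sum_neg_distrib]
      exact Finset.sum_congr rfl fun _ _ => by ring
    have e2 : ∑ i, (N : ℤ) * n i * ((X i).g0 : ℤ) = ∑ i, (N : ℤ) * (n i * ((X i).g0 : ℤ)) :=
      Finset.sum_congr rfl fun _ _ => by ring
    rw [e1, e2] at f2
    linarith
  · rw [Fintype.sum_sum_type, hY, hc] at f3
    simp only [Sum.elim_inl, Sum.elim_inr, tX_g1] at f3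
    rw [Finset.mul_sum, ← Finset.sum_coe_sort s (fun H => b H *
      ((nrComplexPlaces (FF R H) : ℕ) : ℤ))]
    have e1 : ∑ x : {H // H ∈ s}, -b x.1 * ((nrComplexPlaces (FF R x.1) : ℕ) : ℤ) =
        - ∑ x : {H // H ∈ s}, b x.1 * ((nrComplexPlaces (FF R x.1) : ℕ) : ℤ) := by
      rw [← Finset.sum_neg_distrib]
      exact Finset.sum_congr rfl fun _ _ => by ring
    have e2 : ∑ i, (N : ℤ) * n i * ((X i).g1 : ℤ) = ∑ i, (N : ℤ) * (n i * ((X i).g1 : ℤ)) :=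
      Finset.sum_congr rfl fun _ _ => by ring
    rw [e1, e2] at f3
    linarith

/-! ### sums over the residues prime to `M` -/

lemma mem_un {M a : ℕ} : a ∈ un M ↔ a < M ∧ a.Coprime M := by
  unfold un
  simp

lemma un_pos {M a : ℕ} (hM : 2 ≤ M) (ha : a ∈ un M) : 1 ≤ a := by
  rw [mem_un] at ha
  rcases Nat.eq_zero_or_pos a with h | h
  · subst h
    have := ha.2
    rw [Nat.coprime_zero_left] at this
    omega
  · exact h

lemma mod_mem_un {M j a : ℕ} (hM : 2 ≤ M) (hj : j.Coprime M) (ha : a ∈ un M) :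
    (j * a) % M ∈ un M := by
  rw [mem_un] at ha ⊢
  refine ⟨Nat.mod_lt _ (by omega), ?_⟩
  have h1 : (j * a).Coprime M := Nat.Coprime.mul_left hj ha.2
  unfold Nat.Coprime
  rw [← Nat.gcd_rec, Nat.gcd_comm]
  exact h1

lemma sum_un_mul {M j : ℕ} (hM : 2 ≤ M) (hj : j.Coprime M) (f : ℕ → ℂ) :
    ∑ a ∈ un M, f ((j * a) % M) = ∑ a ∈ un M, f a := by
  have hinj : ∀ a₁ ∈ un M, ∀ a₂ ∈ un M, (j * a₁) % M = (j * a₂) % M → a₁ = a₂ := by
    intro a ha b hb h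
    have h1 : a ≡ b [MOD M] := Nat.ModEq.cancel_left_of_coprime (by rw [Nat.gcd_comm]; exact hj) h
    have h2 := (mem_un.1 ha).1
    have h3 := (mem_un.1 hb).1
    exact Nat.ModEq.eq_of_lt_of_lt h1 h2 h3
  refine Finset.sum_bij (fun a _ => (j * a) % M) (fun a ha => mod_mem_un hM hj ha)
    (fun a ha b hb h => hinj a ha b hb h) ?_ fun _ _ => rfl
  intro b hb
  obtain ⟨a, ha, h⟩ := Finset.surj_on_of_inj_on_of_card_le (fun a (_ : a ∈ un M) => (j * a) % M)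
    (fun a ha => mod_mem_un hM hj ha) (fun a b ha hb h => hinj a ha b hb h) le_rfl b hb
  exact ⟨a, ha, h.symm⟩

theorem phi_props (hEIG : T_EIG) (hRAM : T_RAM) {G : Type} [Group G] [Finite G] {V : Type}
    [AddCommGroup V] [Module ℂ V] [FiniteDimensional ℂ V] (ρ : G →* Module.End ℂ V) (M : ℕ)
    (hM : 2 ≤ M) (hρ : ∀ g, ρ g ^ M = 1) (φ : G → ℂ)
    (hφ : ∀ g, φ g = ∑ a ∈ un M, LinearMap.trace ℂ V (ρ (g ^ a))) :
    (∀ g, ∃ q : ℚ, φ g = q) ∧ (∀ x g, φ (x⁻¹ * g * x) = φ g) ∧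
    ∀ g (j : ℕ), j.Coprime (Nat.card G) → φ (g ^ j) = φ g := by
  refine ⟨fun g => ?_, fun x g => ?_, fun g j hj => ?_⟩
  · obtain ⟨α, hα, -, htr⟩ := hEIG V (ρ g) M (by omega) (by rw [pow_succ, hρ, one_mul])
    have h1 : ∀ l, ∃ n : ℤ, ∑ a ∈ un M, α l ^ a = n := by
      intro l
      rcases hα l with h | h
      · refine ⟨0, ?_⟩
        rw [Finset.sum_eq_zero fun a ha => ?_, Int.cast_zero]
        rw [h, zero_pow]
        have := un_pos hM ha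
        omega
      · exact hRAM M (α l) (by omega) h
    choose n hn using h1
    refine ⟨∑ l, (n l : ℚ), ?_⟩
    rw [hφ]
    have h2 : ∀ a ∈ un M, LinearMap.trace ℂ V (ρ (g ^ a)) = ∑ l, α l ^ a := by
      intro a ha
      rw [map_pow]
      exact htr a (un_pos hM ha)
    rw [Finset.sum_congr rfl h2, Finset.sum_comm]
    push_cast
    exact Finset.sum_congr rfl fun l _ => hn l
  · rw [hφ, hφ]
    refine Finset.sum_congr rfl fun a _ => ?_
    have h1 : (x⁻¹ * g * x) ^ a = x⁻¹ * g ^ a * x := by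
      have := conj_pow (i := a) (a := x⁻¹) (b := g)
      rw [inv_inv] at this
      exact this
    rw [h1, map_mul, LinearMap.trace_mul_comm, ← map_mul, ← mul_assoc, mul_inv_cancel, one_mul]
  · have hG : Nat.card G ≠ 0 := Nat.card_ne_zero.2 ⟨⟨1⟩, inferInstance⟩
    have : NeZero (Nat.card G) := ⟨hG⟩
    obtain ⟨p, hpM, hp, hpj⟩ := Nat.forall_exists_prime_gt_and_eq_mod
      ((ZMod.isUnit_iff_coprime j (Nat.card G)).2 hj) M
    have h1 : g ^ j = g ^ p := by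
      rw [pow_eq_pow_iff_modEq]
      have h2 : p ≡ j [MOD Nat.card G] := (ZMod.natCast_eq_natCast_iff _ _ _).1 hpj
      exact (h2.of_dvd (orderOf_dvd_natCard g)).symm
    have hpc : p.Coprime M := by
      rw [Nat.Prime.coprime_iff_not_dvd hp]
      intro h3
      exact absurd (Nat.le_of_dvd (by omega) h3) (by omega)
    have h5 := sum_un_mul hM hpc (fun a => LinearMap.trace ℂ V (ρ (g ^ a)))
    rw [h1, hφ, hφ, ← h5]
    refine Finset.sum_congr rfl fun a _ => ?_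
    show LinearMap.trace ℂ V (ρ ((g ^ p) ^ a)) = LinearMap.trace ℂ V (ρ (g ^ ((p * a) % M)))
    have h6 : ρ ((g ^ p) ^ a) = ρ (g ^ ((p * a) % M)) := by
      rw [← pow_mul, map_pow, map_pow]
      conv_lhs => rw [← Nat.div_add_mod (p * a) M, pow_add, pow_mul, hρ, one_pow, one_mul]
    rw [h6]

/-- linearity of `tp` -/
lemma tp_sum (R : DL.ArtinRep) (p : Nat.Primes) (k : ℕ) {α : Type} (s : Finset α)
    (φ : α → (R.K ≃ₐ[ℚ] R.K) → ℂ) :
    tp R p k (fun g => ∑ a ∈ s, φ a g) = ∑ a ∈ s, tp R p k (φ a) := by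
  have : Fintype (R.In p) := Fintype.ofFinite _
  unfold tp
  simp only [finsum_eq_sum_of_fintype]
  rw [← Finset.mul_sum, Finset.sum_comm]

end Pool.Agent.H24.RC
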