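import Pool.Agent.H78.RC.Targets

/-!
# Functions with `f (p n) = - χ(p) f n` (MP_c59857_nt): plain form of the theorem on filters
-/

set_option autoImplicit false

namespace Pool.Agent.H24.RC

open Finset Pool.Agent.H28.NW

/-- the class of the Möbius function: `f (p n) = - χ(p) f n` for the primes `p` which do not divide
`n` -/
structure Mu (q : ℕ) (χ : DirichletCharacter ℂ q) (f : ℕ → ℂ) : Prop where
  le : ∀ n, ‖f n‖ ≤ 1
  one : f 1 = 1
  mul : ∀ p n : ℕ, p.Prime → ¬ p ∣ n → f (p * n) = -χ p * f n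

theorem Mu.sq {q : ℕ} {χ : DirichletCharacter ℂ q} {f : ℕ → ℂ} (hf : Mu q χ f) (n : ℕ)
    (hn : Squarefree n) : f n = χ n * ArithmeticFunction.moebius n := by
  induction n using Nat.strong_induction_on with
  | _ n ih =>
    by_cases h1 : n = 1
    · subst h1
      rw [hf.one]
      simp
    · have hp := Nat.minFac_prime h1
      obtain ⟨m, hm⟩ := Nat.minFac_dvd n
      obtain ⟨p, hpe⟩ : ∃ p, p = n.minFac := ⟨_, rfl⟩
      rw [← hpe] at hp hm
      have hpm : ¬ p ∣ m := by
        rintro ⟨k, hk⟩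
        apply hp.not_isUnit
        refine hn p ⟨k, ?_⟩
        rw [hm, hk]
        ring
      have hm0 : 0 < m := Nat.pos_of_ne_zero fun h => hn.ne_zero (by rw [hm, h, mul_zero])
      have hmn : m < n := by
        rw [hm]
        exact lt_mul_left hm0 hp.one_lt
      have hms : Squarefree m := hn.squarefree_of_dvd ⟨p, by rw [hm]; ring⟩
      have hcop : Nat.Coprime p m := (hp.coprime_iff_not_dvd).2 hpm
      rw [hm, hf.mul p m hp hpm, ih m hmn hms,
        ArithmeticFunction.isMultiplicative_moebius.map_mul_of_coprime hcop,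
        ArithmeticFunction.moebius_apply_prime hp]
      push_cast
      rw [map_mul]
      ring

theorem Mu.cl {q : ℕ} [NeZero q] {χ : DirichletCharacter ℂ q} {f : ℕ → ℂ} (hf : Mu q χ f) :
    Pool.Agent.H78.RC.Cl q f := by
  refine ⟨hf.le, fun p hp hq => ⟨-χ p, ?_, fun n _ hpn => hf.mul p n hp hpn⟩⟩
  have hcop : Nat.Coprime p q := by
    rw [hp.coprime_iff_not_dvd]
    intro hd
    have := Nat.le_of_dvd (Nat.pos_of_ne_zero (NeZero.ne q)) hd
    omega
  have hu : IsUnit ((p : ℕ) : ZMod q) := (ZMod.isUnit_iff_coprime p q).2 hcop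
  obtain ⟨v, hv⟩ := hu
  rw [norm_neg, ← hv]
  exact χ.unit_norm_eq_one v

end Pool.Agent.H24.RC
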