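import Pool.Agent.H24.RC.Cls
import Pool.Agent.H24.WT.Cls
import Pool.Agent.H93.RW.Wav

/-!
# Filters and waves (MP_c59857_nt): plain form
-/

set_option autoImplicit false

namespace Pool.Agent.H24.RC

open Finset Pool.Agent.H28.NW Pool.Agent.H24.WT

/-- plain form of the lower bound for the filtered sequences modulo waves, class of the Möbius
function -/
theorem rzc_plain (hQ : Pool.Agent.H78.RC.T_RZC) (q : ℕ) [NeZero q] :
    ∃ c : ℝ, 0 < c ∧ ∃ K : ℕ, ∀ H R : ℕ, ∃ L₀ : ℕ, ∀ L Y N : ℕ, L₀ ≤ L → 1 ≤ Y → Y ≤ N →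
      K * Real.log L ≤ Real.log ((N : ℝ) / Y) →
      Real.log N ^ (24 / 25 : ℝ) ≤ Real.log ((N : ℝ) / Y) →
      ∀ (χ : DirichletCharacter ℂ q) (f : ℕ → ℂ), Mu q χ f →
      ∀ a : ℕ → ℕ → ℂ, (∀ n, 1 ≤ ∑ h ∈ range (H + 1), ‖a n h‖ ^ 2) →
      ∀ (b : ℕ → ℕ → ℂ) (β : ℕ → ℕ → ℝ),
        c * Real.log ((N : ℝ) / Y) < ∑ n ∈ Icc Y N, 1 / (n : ℝ) * ((∑ m ∈ Icc 1 L,
          ‖∑ h ∈ range (H + 1), a n h * f (n + m + h) - ∑ r ∈ range R,
            b n r * Complex.exp (2 * Real.pi * Complex.I * (β n r * m))‖ ^ 2) / L) := by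
  obtain ⟨c₀, K, hc₀, h⟩ := hQ q
  set c : ℝ := min c₀ 1 with hcd
  have hc : 0 < c := lt_min hc₀ one_pos
  have hc1 : c ≤ 1 := min_le_right _ _
  set ε : ℝ := c / 8 with hε
  have hε0 : 0 < ε := by positivity
  refine ⟨c / 2, by positivity, K + 1, fun H R => ?_⟩
  obtain ⟨H', L₁, hw⟩ := Pool.Agent.H93.RW.wav H R ε hε0
  obtain ⟨L₀, h⟩ := h H'
  refine ⟨max L₀ (max L₁ 3), fun L Y N hL hY hYN hK hbig χ f hf a ha b β => ?_⟩
  have hL3 : 3 ≤ L := le_trans (le_trans (le_max_right _ _) (le_max_right _ _)) hL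
  have hlogL : 1 ≤ Real.log L := by
    rw [Real.le_log_iff_exp_le (by exact_mod_cast (by omega : 0 < L))]
    have h1 : (3 : ℝ) ≤ L := by exact_mod_cast hL3
    exact (Real.exp_one_lt_d9.le.trans (by norm_num)).trans h1
  have hK0 : (0 : ℝ) ≤ K := Nat.cast_nonneg K
  push_cast at hK
  obtain ⟨T, hT⟩ : ∃ T : ℝ, T = Real.log ((N : ℝ) / Y) := ⟨_, rfl⟩
  have hT1 : 1 ≤ T := by rw [hT]; nlinarith
  have hKL : K * Real.log L ≤ T := by rw [hT]; linarith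
  have hex : ∀ n : ℕ, ∃ a' : ℕ → ℂ, 1 ≤ ∑ h ∈ range (H' + 1), ‖a' h‖ ^ 2 ∧
      (∑ m ∈ Icc 1 L, ‖∑ h ∈ range (H' + 1), a' h * f (n + m + h)‖ ^ 2) / (L : ℝ) ≤
        (1 + ε) * ((∑ m ∈ Icc 1 L, ‖∑ h ∈ range (H + 1), a n h * f (n + m + h) -
          ∑ r ∈ range R, b n r *
            Complex.exp (2 * Real.pi * Complex.I * (β n r * m))‖ ^ 2) / (L : ℝ)) + ε :=
    fun n => hw L (le_trans (le_trans (le_max_left _ _) (le_max_right _ _)) hL) f hf.le n (a n)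
      (ha n) (b n) (β n)
  choose a' ha' hle using hex
  have h1 := h (wn Y N hY hYN hbig) L χ f a' (le_trans (le_max_left _ _) hL)
    (by rw [LL_eq hY hYN] at hT; rw [hT] at hKL; exact hKL) hf.cl hf.sq ha'
  have e1 : (wn Y N hY hYN hbig).L = T := by rw [hT]; exact (LL_eq hY hYN).symm
  rw [e1] at h1
  have h6 : ∑ n ∈ Icc Y N, (1 : ℝ) / n ≤ 1 + T := by
    refine (Pool.Agent.H24.WT.sum_Icc_le Y N hY hYN).trans ?_
    have hY0 : (0 : ℝ) < Y := by exact_mod_cast hY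
    have hZ0 : (0 : ℝ) < N := lt_of_lt_of_le hY0 (by exact_mod_cast hYN)
    have h5 : (1 : ℝ) / Y ≤ 1 := by
      rw [div_le_one hY0]
      exact_mod_cast hY
    rw [hT, Real.log_div hZ0.ne' hY0.ne']
    linarith
  obtain ⟨D, hD⟩ : ∃ D : ℕ → ℝ, D = fun n => (∑ m ∈ Icc 1 L,
      ‖∑ h ∈ range (H + 1), a n h * f (n + m + h) - ∑ r ∈ range R,
        b n r * Complex.exp (2 * Real.pi * Complex.I * (β n r * m))‖ ^ 2) / (L : ℝ) := ⟨_, rfl⟩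
  have h7 : wlg (wn Y N hY hYN hbig) (fun n => (∑ m ∈ Icc 1 L, ‖∑ h ∈ range (H' + 1),
      a' n h * f (n + m + h)‖ ^ 2) / (L : ℝ)) ≤
      (1 + ε) * ∑ n ∈ Icc Y N, 1 / (n : ℝ) * D n + ε * ∑ n ∈ Icc Y N, (1 : ℝ) / n := by
    unfold wlg
    rw [mul_sum, mul_sum, ← sum_add_distrib]
    refine sum_le_sum fun n _ => ?_
    have h8 := hle n
    have h9 : (0 : ℝ) ≤ 1 / (n : ℝ) := by positivity
    rw [div_eq_mul_one_div, mul_comm]
    rw [hD]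
    nlinarith [mul_le_mul_of_nonneg_left h8 h9]
  show c / 2 * Real.log ((N : ℝ) / Y) < _
  rw [← hT]
  have h10 : ∑ n ∈ Icc Y N, 1 / (n : ℝ) * ((∑ m ∈ Icc 1 L,
      ‖∑ h ∈ range (H + 1), a n h * f (n + m + h) - ∑ r ∈ range R,
        b n r * Complex.exp (2 * Real.pi * Complex.I * (β n r * m))‖ ^ 2) / L) =
      ∑ n ∈ Icc Y N, 1 / (n : ℝ) * D n := by rw [hD]
  rw [h10]
  obtain ⟨s, hs⟩ : ∃ s : ℝ, s = ∑ n ∈ Icc Y N, 1 / (n : ℝ) * D n := ⟨_, rfl⟩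
  rw [← hs] at h7 ⊢
  have h11 : c * T ≤ c₀ * T := mul_le_mul_of_nonneg_right (min_le_left _ _) (by linarith)
  have h12 : ε * ∑ n ∈ Icc Y N, (1 : ℝ) / n ≤ ε * (2 * T) :=
    mul_le_mul_of_nonneg_left (by linarith) hε0.le
  by_contra hcon
  rw [not_lt] at hcon
  have h13 : (1 + ε) * s ≤ (1 + ε) * (c / 2 * T) := mul_le_mul_of_nonneg_left hcon (by linarith)
  have h14 : c * T < (1 + ε) * (c / 2 * T) + ε * (2 * T) := by linarith
  rw [hε] at h14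
  have hcT : 0 < c * T := by positivity
  have h15 : c * c * T ≤ c * T := by
    have := mul_le_mul_of_nonneg_right hc1 hcT.le
    linarith
  nlinarith

end Pool.Agent.H24.RC
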